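import Pool.Agent.R441.Num

/-!
The conjectured value of `S_p = ∑_{k<p} binom(-1/2,k) binom(-1/3,k)/(-4)^k` modulo `p²` in the case
`p = A² + 3B²`, `A ≡ 1 (mod 3)`, `A/B ≡ -1` or `-2 (mod 5)`, is wrong for `p = 7`.
-/

set_option autoImplicit false

namespace Pool.Agent.Results.MP_7d0087_nt.SevenFails

open Pool.Agent.R441 (CongMod not_congMod)

/-- `binom(a,k) = a (a-1) ⋯ (a-k+1) / k!` -/
def bc (a : ℚ) (k : ℕ) : ℚ := (∏ j ∈ Finset.range k, (a - j)) / k.factorial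

/-- `S_p = ∑_{k<p} binom(-1/2,k) binom(-1/3,k) / (-4)^k` -/
def S (p : ℕ) : ℚ := ∑ k ∈ Finset.range p, bc (-1 / 2) k * bc (-1 / 3) k / (-4) ^ k

/-- `A / B ≡ -1` or `-2 (mod 5)`, for `5 ∤ A B` -/
def Quot (A B : ℤ) : Prop := ¬ (5 : ℤ) ∣ A * B ∧ ((5 : ℤ) ∣ A + B ∨ (5 : ℤ) ∣ A + 2 * B)

/-- The three statements of the conjecture for the prime `p` -/
def QOne (p : ℕ) : Prop :=
  (p % 3 = 1 → ∀ A B : ℤ, (p : ℤ) = A ^ 2 + 3 * B ^ 2 → A % 3 = 1 → (5 : ℤ) ∣ A * B →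
    CongMod p 2 (S p) (jacobiSym p 5 * (2 * A - p / (2 * A)))) ∧
  (p % 3 = 1 → ∀ A B : ℤ, (p : ℤ) = A ^ 2 + 3 * B ^ 2 → A % 3 = 1 → Quot A B →
    CongMod p 2 (S p) (jacobiSym p 5 * (A + 3 * B - p / (A + 3 * B)))) ∧
  (p % 3 = 2 → CongMod p 1 (S p) 0)

/-- There is a prime `p > 5` (namely `7 = (-2)² + 3 · 1²`, where `-2 ≡ 1 (mod 3)` and
`(-2)/1 ≡ -2 (mod 5)`) for which the second of the three congruences fails, for every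
representation `p = A² + 3B²` it applies to; `S_7` is congruent modulo `49` to the negative of the
stated value. -/
theorem result : ∃ p : ℕ, p = 7 ∧ p.Prime ∧ 5 < p ∧ p % 3 = 1 ∧ ¬ QOne p ∧
    (∃ A B : ℤ, (p : ℤ) = A ^ 2 + 3 * B ^ 2 ∧ A % 3 = 1 ∧ Quot A B) ∧
    ∀ A B : ℤ, (p : ℤ) = A ^ 2 + 3 * B ^ 2 → A % 3 = 1 → Quot A B →
      ¬ CongMod p 2 (S p) (jacobiSym p 5 * (A + 3 * B - p / (A + 3 * B))) ∧
      CongMod p 2 (S p) (-(jacobiSym p 5 * (A + 3 * B - p / (A + 3 * B)))) := by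
  have hj : jacobiSym ((7 : ℕ) : ℤ) 5 = -1 := by norm_num
  have key : ∀ A B : ℤ, ((7 : ℕ) : ℤ) = A ^ 2 + 3 * B ^ 2 → A % 3 = 1 → Quot A B →
      A = -2 ∧ B = 1 := by
    intro A B h h3 hq
    have hA : A ^ 2 ≤ 7 := by push_cast at h; nlinarith [sq_nonneg B]
    have hB : B ^ 2 ≤ 7 := by push_cast at h; nlinarith [sq_nonneg A]
    have hA1 : A ≤ 2 := by nlinarith
    have hA2 : -2 ≤ A := by nlinarith
    have hB1 : B ≤ 2 := by nlinarith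
    have hB2 : -2 ≤ B := by nlinarith
    obtain ⟨hq1, hq2⟩ := hq
    interval_cases A <;> interval_cases B <;> simp_all
  have hS : ¬ CongMod 7 2 (S 7)
      ((jacobiSym ((7 : ℕ) : ℤ) 5 : ℚ) *
        (((-2 : ℤ) : ℚ) + 3 * ((1 : ℤ) : ℚ) - ((7 : ℕ) : ℚ) / (((-2 : ℤ) : ℚ) + 3 * ((1 : ℤ) : ℚ)))) := by
    rw [hj]
    exact not_congMod (by norm_num) (by decide +kernel)
  have hS2 : CongMod 7 2 (S 7)
      (-((jacobiSym ((7 : ℕ) : ℤ) 5 : ℚ) *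
        (((-2 : ℤ) : ℚ) + 3 * ((1 : ℤ) : ℚ) -
          ((7 : ℕ) : ℚ) / (((-2 : ℤ) : ℚ) + 3 * ((1 : ℤ) : ℚ))))) := by
    rw [hj]
    refine ⟨(S 7 - -(((-1 : ℤ) : ℚ) * (((-2 : ℤ) : ℚ) + 3 * ((1 : ℤ) : ℚ) -
          ((7 : ℕ) : ℚ) / (((-2 : ℤ) : ℚ) + 3 * ((1 : ℤ) : ℚ))))) / 7 ^ 2,
      by decide +kernel, by push_cast; ring⟩
  have hq : Quot (-2) 1 := by
    refine ⟨by decide, Or.inr (by decide)⟩
  refine ⟨7, rfl, by norm_num, by norm_num, by norm_num, ?_, ⟨-2, 1, by norm_num, by decide, hq⟩, ?_⟩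
  · rintro ⟨-, h, -⟩
    exact hS (h (by norm_num) (-2) 1 (by norm_num) (by decide) hq)
  · intro A B h h3 hq'
    obtain ⟨rfl, rfl⟩ := key A B h h3 hq'
    exact ⟨hS, hS2⟩

end Pool.Agent.Results.MP_7d0087_nt.SevenFails
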